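import Pool.Agent.R228.CQ.Main

/-!
# Node counts of Chebyshev-type trigonometric quadratures under bounded perturbations

For all `0 < m < M` the ratio of the node counts of `h W` and `W` is unbounded above, already for
degree `2`, over all weights `W` and all `2π`-periodic measurable `h` with `m < h < M`.
-/

set_option autoImplicit false

namespace Pool.Agent.Results.MP_205740_an.UnboundedRatio

open Pool.Agent.R228.CQ

/-- Question Q1 has a negative answer: whatever `0 < m < M` and `C`, some weight `W` and some
`2π`-periodic measurable `h` with `m < h < M` satisfy `N_W(2) ≤ 4` and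
`C * N_W(2) < N_{hW}(2)`. -/
theorem result (m M : ℝ) (hm : 0 < m) (hmM : m < M) (C : ℕ) :
    ∃ W h : ℝ → ℝ, IsWeight W ∧ Measurable h ∧ (∀ θ, h (θ + 2 * Real.pi) = h θ) ∧
      (∀ θ, m < h θ ∧ h θ < M) ∧
      Nmin W 2 ≤ 4 ∧ (C : ℕ∞) * Nmin W 2 < Nmin (fun θ => h θ * W θ) 2 :=
  main m M hm hmM C

end Pool.Agent.Results.MP_205740_an.UnboundedRatio
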